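import Pool.Agent.N894.WF.MainN

/-!
# Graph products and free products of rank-sofic groups (`MP_f2b0dc_al`, Q1 and Q2)

A group `G` is *rank-sofic* if for every finite `F ⊆ G` and every `K` there are a finite group `Q`
and a map `φ : G → Q` such that no `φ g`, `g ∈ F`, `g ≠ 1`, lies in a subgroup of `Q` generated by at
most `K` conjugates of errors `φ(g) φ(h) φ(gh)⁻¹`, `g, h ∈ F`. Sofic groups, groups which are linear
sofic over finite fields and groups approximable by finite groups with commutator-contractive
invariant lengths are rank-sofic, rank-sofic groups are weakly sofic, and, by the theorem of Nikolov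
and Segal on generators and commutators in finite groups, *every* weakly sofic group is rank-sofic. We prove without any hypothesis that arbitrary graph products (in particular
free products) of rank-sofic groups are rank-sofic.

Idea of the proof: let `φ_v : Γ_v → P` be maps into a finite group `P` which commute exactly along
the edges. In the lamplighter group `(ℤ/m)^{V₀} ≀ P` conjugate the copy of `φ_v(Γ_v)` by the lamp
configuration `e_v` on the subgroup generated by the images of the neighbours of `v`. If a reduced
word falls into a subgroup generated by `K` conjugates of errors, then the sum of the lamps over a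
coset of its projection to `P` vanishes, which forces a shorter reduced word to fall, in `P`, into the
product of such a subgroup and the subgroup of a link. For the converse of rank-sofic implies weakly
sofic one uses that `ℤ` is a direct summand of every finitely generated subgroup of the profinite
completion of `ℤ` containing it, in a finitary form (`LeafLIN`).
-/

set_option autoImplicit false

namespace Pool.Agent.Results.MP_f2b0dc_al.RankSoficGraphProducts

open N894.WF

theorem result :
    (∀ (V : Type) (X : SimpleGraph V) (Γ : V → Type) [∀ v, Group (Γ v)],
      (∀ v, RankSofic (Γ v)) → RankSofic (GraphProduct X Γ)) ∧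
    (∀ (V : Type) (Γ : V → Type) [∀ v, Group (Γ v)],
      (∀ v, RankSofic (Γ v)) → RankSofic (Monoid.CoprodI Γ)) ∧
    (∀ (G : Type) [Group G], RankSofic G → WeaklySofic G) ∧
    (∀ (G : Type) [Group G], Sofic G → RankSofic G) ∧
    (∀ (G : Type) [Group G], LinSofic G → RankSofic G) ∧
    (∀ (G : Type) [Group G], CCApprox G → RankSofic G) ∧
    (NikolovSegal → ∀ (G : Type) [Group G], WeaklySofic G → RankSofic G) :=
  ⟨fun V X Γ _ h => rankSofic_graphProduct V X Γ h,
   fun V Γ _ h => rankSofic_coprod V Γ h,
   fun G _ h => weaklySofic_of_rankSofic G h,
   fun G _ h => rankSofic_of_sofic G h,
   fun G _ h => rankSofic_of_linSofic G h,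
   fun G _ h => rankSofic_of_ccApprox G h,
   fun NS G _ h => rankSofic_of_weaklySofic NS G h⟩

end Pool.Agent.Results.MP_f2b0dc_al.RankSoficGraphProducts
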